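import Mathlib

set_option autoImplicit false

/-!
# The largest square in an odd-dimensional unit cube

For every `n ≥ 1` the largest edge of a square contained in the unit cube `[0,1]^(2n+1)` is
`√((8n+1)/8)`.

Proof of the upper bound. If `c + a U + b V`, `0 ≤ a, b ≤ 1`, is a square of edge `s` in the cube,
then `|U_j| + |V_j| ≤ 1` for every coordinate `j`. Put `x_j = U_j² - V_j²`, `y_j = 2 U_j V_j`,
`r_j = U_j² + V_j²`. Then `∑ x_j = ∑ y_j = 0`, `∑ r_j = 2 s²`, `r_j + |y_j| ≤ 1`, and the claim is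
`∑ (1 - r_j) ≥ 3/4` for an odd number of coordinates.
-/

namespace Pool.Agent.Results.MP_befaea_co.LargestSquare

open Finset

/-- A cube of edge `s` and dimension `m` is inscribed in the unit cube `[0,1]^n`: there is a
congruent copy (the image under an isometric embedding of `ℝ^m` into `ℝ^n`) of `[0,s]^m` that is
contained in `[0,1]^n`. -/
def Inscribed (m n : ℕ) (s : ℝ) : Prop :=
  ∃ φ : EuclideanSpace ℝ (Fin m) → EuclideanSpace ℝ (Fin n), Isometry φ ∧
    ∀ x : EuclideanSpace ℝ (Fin m), (∀ i, x i ∈ Set.Icc 0 s) → ∀ j, φ x j ∈ Set.Icc (0 : ℝ) 1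

/-- `f(m,n)`: the largest edge of an `m`-dimensional cube inscribed in the unit cube `[0,1]^n`. -/
noncomputable def f (m n : ℕ) : ℝ := sSup {s : ℝ | 0 < s ∧ Inscribed m n s}

/-! ### The inequality behind the upper bound -/

/-- `κ(ε) = ε / (2 - ε)` -/
noncomputable def kap (e : ℝ) : ℝ := e / (2 - e)

lemma kap_mono {a b : ℝ} (hab : a ≤ b) (hb : b ≤ 1) : kap a ≤ kap b := by
  unfold kap
  rw [div_le_div_iff₀ (by linarith) (by linarith)]
  nlinarith

/-- The defect of one coordinate. -/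
lemma defect {x y r : ℝ} (hr : 0 ≤ r) (h : r ^ 2 = x ^ 2 + y ^ 2) (h1 : r + |y| ≤ 1) :
    (1 - |x|) - kap (1 - |x|) * |y| ≤ 1 - r := by
  have hy := abs_nonneg y
  have hx := abs_nonneg x
  have hx2 : |x| ^ 2 = x ^ 2 := sq_abs x
  have hy2 : |y| ^ 2 = y ^ 2 := sq_abs y
  have hxr : |x| ≤ r := by
    apply abs_le_of_sq_le_sq _ hr
    nlinarith
  have hx1 : |x| ≤ 1 := by linarith
  -- `2 |y| ≤ 1 - x²`
  have hyx : 2 * |y| ≤ 1 - |x| ^ 2 := by nlinarith
  set a := |x| with ha
  set b := |y| with hb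
  have hk : kap (1 - a) = (1 - a) / (1 + a) := by
    unfold kap
    congr 1
    ring
  rw [hk]
  have hpos : 0 < 1 + a := by linarith
  have key : r * (1 + a) ≤ a * (1 + a) + (1 - a) * b := by
    have h0 : 0 ≤ a * (1 + a) + (1 - a) * b := by
      have : 0 ≤ (1 - a) * b := mul_nonneg (by linarith) hy
      nlinarith
    apply le_of_sq_le_sq _ h0
    have h2 : (r * (1 + a)) ^ 2 = (a ^ 2 + b ^ 2) * (1 + a) ^ 2 := by
      rw [mul_pow, h, hx2, hy2]
    rw [h2]
    -- reduces to `4 a b² ≤ 2 a (1+a)(1-a) b`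
    have h3 : 0 ≤ a * b * ((1 - a ^ 2) - 2 * b) :=
      mul_nonneg (mul_nonneg hx hy) (by linarith)
    nlinarith
  have e : (1 - a) - (1 - a) / (1 + a) * b - (1 - r) =
      (r * (1 + a) - (a * (1 + a) + (1 - a) * b)) / (1 + a) := by
    field_simp
    ring
  have h4 : (r * (1 + a) - (a * (1 + a) + (1 - a) * b)) / (1 + a) ≤ 0 :=
    div_nonpos_of_nonpos_of_nonneg (by linarith) hpos.le
  linarith


lemma poly_ineq {E : ℝ} (hE : 1 / 2 ≤ E) : 0 ≤ 4 * E ^ 3 - 8 * E ^ 2 + 7 * E - 2 := by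
  have h : 4 * E ^ 3 - 8 * E ^ 2 + 7 * E - 2 = (2 * E - 1) * (2 * E ^ 2 - 3 * E + 2) := by ring
  rw [h]
  apply mul_nonneg (by linarith)
  nlinarith [sq_nonneg (E - 3 / 4)]

/-- The final inequality between real numbers. -/
lemma final_ineq {E F Y DA DB : ℝ} (hE1 : E < 1) (hF0 : 0 ≤ F) (hFE : F ≤ E) (hEF : 1 ≤ E + F)
    (hY : 0 ≤ Y) (hA : Y ≤ DA) (hB : Y ≤ DB) (hA' : E - kap E * Y ≤ DA)
    (hB' : F - kap F * Y ≤ DB) : 3 / 4 ≤ DA + DB := by
  by_contra hlt
  push Not at hlt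
  have hY1 : Y < 3 / 8 := by linarith
  have hE2 : 1 / 2 ≤ E := by linarith
  have h2E : 0 < 2 - E := by linarith
  have h2F : 0 < 2 - F := by linarith
  -- the bound (2) is monotone in `F`
  have hmono : (1 - E) - kap (1 - E) * Y ≤ F - kap F * Y := by
    have hk1 : kap (1 - E) = (1 - E) / (1 + E) := by unfold kap; congr 1; ring
    have hk2 : kap F - kap (1 - E) = 2 * (F - (1 - E)) / ((2 - F) * (1 + E)) := by
      rw [hk1]
      unfold kap
      have : (0 : ℝ) < 1 + E := by linarith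
      field_simp
      ring
    have hden : 1 ≤ (2 - F) * (1 + E) := by nlinarith
    have hle : kap F - kap (1 - E) ≤ 2 * (F - (1 - E)) := by
      rw [hk2]
      apply div_le_self _ hden
      linarith
    nlinarith
  have hk1 : kap (1 - E) = (1 - E) / (1 + E) := by unfold kap; congr 1; ring
  -- (1)
  have h1 : E + (1 - kap E) * Y < 3 / 4 := by nlinarith
  -- (2)
  have h2 : 1 - (kap E + kap (1 - E)) * Y < 3 / 4 := by nlinarith
  have h1E : (0 : ℝ) < 1 + E := by linarith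
  have hkE : kap E = E / (2 - E) := rfl
  rw [hkE] at h1 h2
  rw [hk1] at h2
  -- clear denominators
  have h1' : E * (2 - E) + (2 - 2 * E) * Y < 3 / 4 * (2 - E) := by
    have e : E * (2 - E) + (2 - 2 * E) * Y = (E + (1 - E / (2 - E)) * Y) * (2 - E) := by
      field_simp
      ring
    rw [e]
    exact mul_lt_mul_of_pos_right h1 h2E
  have h2' : (2 - E) * (1 + E) - (2 * E ^ 2 - 2 * E + 2) * Y < 3 / 4 * ((2 - E) * (1 + E)) := by
    have e : (2 - E) * (1 + E) - (2 * E ^ 2 - 2 * E + 2) * Y =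
        (1 - (E / (2 - E) + (1 - E) / (1 + E)) * Y) * ((2 - E) * (1 + E)) := by
      field_simp
      ring
    rw [e]
    exact mul_lt_mul_of_pos_right h2 (mul_pos h2E h1E)
  -- combine: multiply h1' by (E² - E + 1), h2' by (1 - E)
  have hq : 0 < E ^ 2 - E + 1 := by nlinarith [sq_nonneg (E - 1 / 2)]
  have h3 := mul_lt_mul_of_pos_right h1' hq
  have h4 := mul_lt_mul_of_pos_right h2' (show (0 : ℝ) < 1 - E by linarith)
  have h5 := poly_ineq hE2
  have h6 : 0 ≤ (2 - E) * (4 * E ^ 3 - 8 * E ^ 2 + 7 * E - 2) := mul_nonneg h2E.le h5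
  nlinarith

lemma two_groups {ι : Type*} (A B : Finset ι) (e b d : ι → ℝ) (Y : ℝ)
    (he0 : ∀ j, 0 ≤ e j) (he1 : ∀ j, e j ≤ 1) (hb : ∀ j, 0 ≤ b j) (hbd : ∀ j, b j ≤ d j)
    (hed : ∀ j, e j - kap (e j) * b j ≤ d j) (hA : ∑ j ∈ A, b j = Y) (hB : ∑ j ∈ B, b j = Y)
    (hBA : ∑ j ∈ B, e j ≤ ∑ j ∈ A, e j) (h1 : 1 ≤ ∑ j ∈ A, e j + ∑ j ∈ B, e j) :
    3 / 4 ≤ ∑ j ∈ A, d j + ∑ j ∈ B, d j := by
  have hY : 0 ≤ Y := by rw [← hA]; exact sum_nonneg fun j _ => hb j
  have hDA : Y ≤ ∑ j ∈ A, d j := by rw [← hA]; exact sum_le_sum fun j _ => hbd j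
  have hDB : Y ≤ ∑ j ∈ B, d j := by rw [← hB]; exact sum_le_sum fun j _ => hbd j
  have hgen : ∀ (S : Finset ι) (K : ℝ), (∀ j ∈ S, kap (e j) ≤ K) → ∑ j ∈ S, b j = Y →
      ∑ j ∈ S, e j - K * Y ≤ ∑ j ∈ S, d j := by
    intro S K hK hS
    rw [← hS, mul_sum, ← sum_sub_distrib]
    apply sum_le_sum
    intro j hj
    have := mul_le_mul_of_nonneg_right (hK j hj) (hb j)
    have := hed j
    linarith
  have hF0 : 0 ≤ ∑ j ∈ B, e j := sum_nonneg fun j _ => he0 j
  rcases le_or_gt 1 (∑ j ∈ A, e j) with hE | hE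
  · have := hgen A 1 (fun j _ => by
      have := kap_mono (he1 j) le_rfl
      have h1 : kap 1 = 1 := by unfold kap; norm_num
      linarith) hA
    linarith
  · have hA' := hgen A (kap (∑ j ∈ A, e j)) (fun j hj =>
      kap_mono (single_le_sum (fun i _ => he0 i) hj) hE.le) hA
    have hB' := hgen B (kap (∑ j ∈ B, e j)) (fun j hj =>
      kap_mono (single_le_sum (fun i _ => he0 i) hj) (by linarith)) hB
    exact final_ineq hE hF0 hBA h1 hY hDA hDB hA' hB'

/-- The total defect of an odd number of coordinates is at least `3/4`. -/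
lemma total_defect {ι : Type*} [Fintype ι] (hodd : Odd (Fintype.card ι)) (x y r : ι → ℝ)
    (hr : ∀ j, 0 ≤ r j) (h : ∀ j, r j ^ 2 = x j ^ 2 + y j ^ 2) (h1 : ∀ j, r j + |y j| ≤ 1)
    (hx : ∑ j, x j = 0) (hy : ∑ j, y j = 0) : 3 / 4 ≤ ∑ j, (1 - r j) := by
  classical
  have hxr : ∀ j, |x j| ≤ r j := by
    intro j
    apply abs_le_of_sq_le_sq _ (hr j)
    have := h j
    nlinarith [sq_nonneg (y j)]
  have hx1 : ∀ j, |x j| ≤ 1 := by
    intro j
    have := hxr j
    have := h1 j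
    have := abs_nonneg (y j)
    linarith
  -- the sum of the deviations is at least one
  have hsum : 1 ≤ ∑ j, (1 - |x j|) := by
    let s : ι → ℤ := fun j => if 0 ≤ x j then 1 else -1
    have hs : ∀ j, (s j : ℝ) * |x j| = x j := by
      intro j
      simp only [s]
      split_ifs with h0
      · rw [abs_of_nonneg h0]; push_cast; ring
      · rw [abs_of_neg (by linarith)]; push_cast; ring
    have hsabs : ∀ j, |(s j : ℝ)| = 1 := by
      intro j
      simp only [s]
      split_ifs <;> simp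
    have hoddS : Odd (∑ j, s j) := by
      have h2 : (∑ j, s j) = Fintype.card ι - 2 * ((univ.filter fun j => ¬ 0 ≤ x j).card : ℤ) := by
        have : ∀ j, s j = 1 - 2 * (if ¬ 0 ≤ x j then 1 else 0) := by
          intro j
          simp only [s]
          split_ifs <;> simp_all
        simp_rw [this]
        rw [sum_sub_distrib, ← mul_sum, sum_boole]
        simp
      rw [h2]
      obtain ⟨k, hk⟩ := hodd
      refine ⟨k - (univ.filter fun j => ¬ 0 ≤ x j).card, ?_⟩
      rw [hk]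
      push_cast
      ring
    have hne : (1 : ℤ) ≤ |∑ j, s j| := by
      apply Int.one_le_abs
      intro h0
      rw [h0] at hoddS
      exact absurd hoddS (by decide)
    have hreal : (1 : ℝ) ≤ |∑ j, (s j : ℝ)| := by
      have : ((1 : ℤ) : ℝ) ≤ ((|∑ j, s j| : ℤ) : ℝ) := by exact_mod_cast hne
      simpa using this
    have heq : ∑ j, (s j : ℝ) = ∑ j, (s j : ℝ) * (1 - |x j|) := by
      have : ∑ j, (s j : ℝ) * (1 - |x j|) = ∑ j, (s j : ℝ) - ∑ j, x j := by
        rw [← sum_sub_distrib]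
        apply sum_congr rfl
        intro j _
        rw [mul_sub, hs j, mul_one]
      rw [this, hx, sub_zero]
    rw [heq] at hreal
    calc (1 : ℝ) ≤ |∑ j, (s j : ℝ) * (1 - |x j|)| := hreal
      _ ≤ ∑ j, |(s j : ℝ) * (1 - |x j|)| := abs_sum_le_sum_abs _ _
      _ = ∑ j, (1 - |x j|) := by
          apply sum_congr rfl
          intro j _
          rw [abs_mul, hsabs j, one_mul, abs_of_nonneg (by linarith [hx1 j])]
  set A := univ.filter (fun j => 0 ≤ y j) with hA
  set B := univ.filter (fun j => ¬ 0 ≤ y j) with hB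
  have hsplit : ∀ g : ι → ℝ, ∑ j, g j = ∑ j ∈ A, g j + ∑ j ∈ B, g j := by
    intro g
    rw [hA, hB, sum_filter_add_sum_filter_not]
  have hYA : ∑ j ∈ A, |y j| = ∑ j ∈ A, y j := by
    apply sum_congr rfl
    intro j hj
    exact abs_of_nonneg (by simpa [hA] using hj)
  have hYB : ∑ j ∈ B, |y j| = ∑ j ∈ A, |y j| := by
    have h2 : ∑ j ∈ B, |y j| = - ∑ j ∈ B, y j := by
      rw [← sum_neg_distrib]
      apply sum_congr rfl
      intro j hj
      have : ¬ 0 ≤ y j := by simpa [hB] using hj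
      exact abs_of_neg (by linarith)
    have h3 := hsplit y
    rw [hy] at h3
    rw [h2, hYA]
    linarith
  have hd : ∀ j, |y j| ≤ 1 - r j := fun j => by linarith [h1 j]
  have hed : ∀ j, (1 - |x j|) - kap (1 - |x j|) * |y j| ≤ 1 - r j :=
    fun j => defect (hr j) (h j) (h1 j)
  have he0 : ∀ j, 0 ≤ 1 - |x j| := fun j => by linarith [hx1 j]
  have he1 : ∀ j, 1 - |x j| ≤ 1 := fun j => by linarith [abs_nonneg (x j)]
  rw [hsplit] at hsum
  rw [hsplit (fun j => 1 - r j)]
  rcases le_total (∑ j ∈ B, (1 - |x j|)) (∑ j ∈ A, (1 - |x j|)) with hle | hle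
  · exact two_groups A B (fun j => 1 - |x j|) (fun j => |y j|) (fun j => 1 - r j)
      (∑ j ∈ A, |y j|) he0 he1 (fun j => abs_nonneg _) hd hed rfl hYB hle hsum
  · rw [add_comm]
    exact two_groups B A (fun j => 1 - |x j|) (fun j => |y j|) (fun j => 1 - r j)
      (∑ j ∈ A, |y j|) he0 he1 (fun j => abs_nonneg _) hd hed hYB rfl hle (by linarith)


/-! ### The upper bound -/

lemma upper {n : ℕ} {s : ℝ} (hs : 0 < s) (h : Inscribed 2 (2 * n + 1) s) :
    s ≤ √((8 * n + 1) / 8) := by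
  obtain ⟨φ, hφ, hin⟩ := h
  set A := hφ.affineIsometryOfStrictConvexSpace with hAdef
  have hAφ : ∀ x, A x = φ x := fun x => rfl
  set L := A.linearIsometry with hL
  set c := φ 0 with hc
  have hφL : ∀ x, φ x = L x + c := by
    intro x
    have h1 := A.map_vadd (0 : EuclideanSpace ℝ (Fin 2)) x
    rw [vadd_eq_add, vadd_eq_add, add_zero, hAφ, hAφ] at h1
    exact h1
  set u := L (EuclideanSpace.single 0 1) with hu
  set v := L (EuclideanSpace.single 1 1) with hv
  have hnu : ∑ j, u j ^ 2 = 1 := by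
    have h1 : ‖u‖ = 1 := by rw [hu, L.norm_map]; simp
    have h2 := EuclideanSpace.norm_sq_eq u
    rw [h1] at h2
    simpa using h2.symm
  have hnv : ∑ j, v j ^ 2 = 1 := by
    have h1 : ‖v‖ = 1 := by rw [hv, L.norm_map]; simp
    have h2 := EuclideanSpace.norm_sq_eq v
    rw [h1] at h2
    simpa using h2.symm
  have huv : ∑ j, u j * v j = 0 := by
    have h1 : inner ℝ u v = (0 : ℝ) := by
      rw [hu, hv, L.inner_map_map, EuclideanSpace.inner_single_left]
      simp
    rw [PiLp.inner_apply] at h1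
    simpa [mul_comm] using h1
  have hLab : ∀ a b : ℝ, L !₂[a, b] = a • u + b • v := by
    intro a b
    have : (!₂[a, b] : EuclideanSpace ℝ (Fin 2)) =
        a • EuclideanSpace.single 0 1 + b • EuclideanSpace.single 1 1 := by
      ext i
      fin_cases i <;> simp
    rw [this, map_add, map_smul, map_smul]
  have hbox : ∀ a b : ℝ, 0 ≤ a → a ≤ s → 0 ≤ b → b ≤ s → ∀ j,
      0 ≤ a * u j + b * v j + c j ∧ a * u j + b * v j + c j ≤ 1 := by
    intro a b ha0 ha1 hb0 hb1 j
    have h1 := hin !₂[a, b] (by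
      intro i
      fin_cases i
      · simp; exact ⟨ha0, ha1⟩
      · simp; exact ⟨hb0, hb1⟩) j
    rw [hφL, hLab] at h1
    simpa using h1
  have habs : ∀ j, s * |u j| + s * |v j| ≤ 1 := by
    intro j
    have h00 := hbox 0 0 le_rfl hs.le le_rfl hs.le j
    have h10 := hbox s 0 hs.le le_rfl le_rfl hs.le j
    have h01 := hbox 0 s le_rfl hs.le hs.le le_rfl j
    have h11 := hbox s s hs.le le_rfl hs.le le_rfl j
    rcases abs_cases (u j) with ⟨e1, _⟩ | ⟨e1, _⟩ <;> rcases abs_cases (v j) with ⟨e2, _⟩ | ⟨e2, _⟩ <;>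
      rw [e1, e2] <;> linarith [h00.1, h00.2, h10.1, h10.2, h01.1, h01.2, h11.1, h11.2]
  have hmain := total_defect (ι := Fin (2 * n + 1)) (by rw [Fintype.card_fin]; exact ⟨n, rfl⟩)
    (fun j => s ^ 2 * (u j ^ 2 - v j ^ 2)) (fun j => 2 * s ^ 2 * (u j * v j))
    (fun j => s ^ 2 * (u j ^ 2 + v j ^ 2)) (fun j => by positivity) (fun j => by ring)
    (fun j => by
      have e : s ^ 2 * (u j ^ 2 + v j ^ 2) + |2 * s ^ 2 * (u j * v j)| =
          (s * |u j| + s * |v j|) ^ 2 := by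
        rw [abs_mul, abs_mul (u j), abs_of_nonneg (by positivity : 0 ≤ 2 * s ^ 2),
          ← sq_abs (u j), ← sq_abs (v j)]
        ring
      change s ^ 2 * (u j ^ 2 + v j ^ 2) + |2 * s ^ 2 * (u j * v j)| ≤ 1
      rw [e]
      have h0 : 0 ≤ s * |u j| + s * |v j| := by positivity
      nlinarith [habs j])
    (by rw [← mul_sum, sum_sub_distrib, hnu, hnv]; ring)
    (by rw [← mul_sum, huv]; ring)
  have hsum : ∑ j : Fin (2 * n + 1), (1 - s ^ 2 * (u j ^ 2 + v j ^ 2)) =
      (2 * n + 1) - s ^ 2 * 2 := by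
    rw [sum_sub_distrib, ← mul_sum, sum_add_distrib, hnu, hnv, sum_const, card_univ,
      Fintype.card_fin, nsmul_eq_mul]
    push_cast
    ring
  rw [hsum] at hmain
  apply Real.le_sqrt_of_sq_le
  linarith

/-! ### The construction -/

/-- the first edge vector -/
noncomputable def cU (j : ℕ) : ℝ := if j < 2 then 1 / 4 else if Even j then 1 else 0

/-- the second edge vector -/
noncomputable def cV (j : ℕ) : ℝ :=
  if j = 0 then 3 / 4 else if j = 1 then -(3 / 4) else if Even j then 0 else 1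

/-- the base point -/
noncomputable def cC (j : ℕ) : ℝ := if j = 1 then 3 / 4 else 0

lemma cU_sum (n : ℕ) (hn : 1 ≤ n) : ∑ j ∈ range (2 * n + 1), cU j ^ 2 = n + 1 / 8 := by
  induction n, hn using Nat.le_induction with
  | base => simp [sum_range_succ, cU]; norm_num
  | succ k hk ih =>
    have e : 2 * (k + 1) + 1 = (2 * k + 1) + 1 + 1 := by ring
    rw [e, sum_range_succ, sum_range_succ, ih]
    have h1 : cU (2 * k + 1) = 0 := by
      unfold cU
      rw [if_neg (by omega), if_neg (by simp)]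
    have h2 : cU (2 * k + 1 + 1) = 1 := by
      unfold cU
      rw [if_neg (by omega), if_pos ⟨k + 1, by ring⟩]
    rw [h1, h2]
    push_cast
    ring

lemma cV_sum (n : ℕ) (hn : 1 ≤ n) : ∑ j ∈ range (2 * n + 1), cV j ^ 2 = n + 1 / 8 := by
  induction n, hn using Nat.le_induction with
  | base => simp [sum_range_succ, cV]; norm_num
  | succ k hk ih =>
    have e : 2 * (k + 1) + 1 = (2 * k + 1) + 1 + 1 := by ring
    rw [e, sum_range_succ, sum_range_succ, ih]
    have h1 : cV (2 * k + 1) = 1 := by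
      unfold cV
      rw [if_neg (by omega), if_neg (by omega), if_neg (by simp)]
    have h2 : cV (2 * k + 1 + 1) = 0 := by
      unfold cV
      rw [if_neg (by omega), if_neg (by omega), if_pos ⟨k + 1, by ring⟩]
    rw [h1, h2]
    push_cast
    ring

lemma cUV_sum (n : ℕ) (hn : 1 ≤ n) : ∑ j ∈ range (2 * n + 1), cU j * cV j = 0 := by
  induction n, hn using Nat.le_induction with
  | base => simp [sum_range_succ, cV, cU]
  | succ k hk ih =>
    have e : 2 * (k + 1) + 1 = (2 * k + 1) + 1 + 1 := by ring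
    rw [e, sum_range_succ, sum_range_succ, ih]
    have h1 : cU (2 * k + 1) = 0 := by
      unfold cU
      rw [if_neg (by omega), if_neg (by simp)]
    have h2 : cV (2 * k + 1 + 1) = 0 := by
      unfold cV
      rw [if_neg (by omega), if_neg (by omega), if_pos ⟨k + 1, by ring⟩]
    rw [h1, h2]
    ring

lemma box (j : ℕ) {a b : ℝ} (ha0 : 0 ≤ a) (ha1 : a ≤ 1) (hb0 : 0 ≤ b) (hb1 : b ≤ 1) :
    0 ≤ a * cU j + b * cV j + cC j ∧ a * cU j + b * cV j + cC j ≤ 1 := by
  unfold cU cV cC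
  split_ifs <;> first | omega | (constructor <;> linarith)

lemma lower (n : ℕ) (hn : 1 ≤ n) : Inscribed 2 (2 * n + 1) (√((8 * n + 1) / 8)) := by
  set s : ℝ := √((8 * n + 1) / 8) with hs
  have hs0 : 0 < s := Real.sqrt_pos.mpr (by positivity)
  have hs2 : s ^ 2 = n + 1 / 8 := by
    rw [hs, Real.sq_sqrt (by positivity)]
    ring
  let U : EuclideanSpace ℝ (Fin (2 * n + 1)) := WithLp.toLp 2 fun j => cU j
  let V : EuclideanSpace ℝ (Fin (2 * n + 1)) := WithLp.toLp 2 fun j => cV j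
  let C : EuclideanSpace ℝ (Fin (2 * n + 1)) := WithLp.toLp 2 fun j => cC j
  refine ⟨fun x => (x 0 / s) • U + (x 1 / s) • V + C, ?_, ?_⟩
  · refine Isometry.of_dist_eq fun x y => ?_
    rw [EuclideanSpace.dist_eq, EuclideanSpace.dist_eq]
    congr 1
    have h1 : ∀ j : Fin (2 * n + 1),
        dist (((x 0 / s) • U + (x 1 / s) • V + C) j) (((y 0 / s) • U + (y 1 / s) • V + C) j) ^ 2 =
        ((x 0 - y 0) / s) ^ 2 * cU j ^ 2 + ((x 1 - y 1) / s) ^ 2 * cV j ^ 2 +
          2 * ((x 0 - y 0) / s) * ((x 1 - y 1) / s) * (cU j * cV j) := by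
      intro j
      rw [Real.dist_eq, sq_abs]
      simp only [U, V, C, PiLp.add_apply, PiLp.smul_apply, smul_eq_mul]
      ring
    simp_rw [h1]
    rw [sum_add_distrib, sum_add_distrib, ← mul_sum, ← mul_sum, ← mul_sum,
      Fin.sum_univ_eq_sum_range (fun j => cU j ^ 2), Fin.sum_univ_eq_sum_range (fun j => cV j ^ 2),
      Fin.sum_univ_eq_sum_range (fun j => cU j * cV j), cU_sum n hn, cV_sum n hn, cUV_sum n hn,
      ← hs2, Fin.sum_univ_two, Real.dist_eq, Real.dist_eq, sq_abs, sq_abs]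
    field_simp
    ring
  · intro x hx j
    have h0 := hx 0
    have h1 := hx 1
    have := box j (a := x 0 / s) (b := x 1 / s) (div_nonneg h0.1 hs0.le)
      ((div_le_one hs0).mpr h0.2) (div_nonneg h1.1 hs0.le) ((div_le_one hs0).mpr h1.2)
    simpa [U, V, C] using this

/-- **Answer to Q1.** For every `n ≥ 1` the largest edge `f(2, 2n+1)` of a square contained in the
unit cube of dimension `2n+1` is `√((8n+1)/8)`: the known lower bound is the exact value. -/
theorem result (n : ℕ) (hn : 1 ≤ n) :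
    IsGreatest {s : ℝ | 0 < s ∧ Inscribed 2 (2 * n + 1) s} (√((8 * n + 1) / 8)) ∧
      f 2 (2 * n + 1) = √((8 * n + 1) / 8) := by
  have h : IsGreatest {s : ℝ | 0 < s ∧ Inscribed 2 (2 * n + 1) s} (√((8 * n + 1) / 8)) :=
    ⟨⟨Real.sqrt_pos.mpr (by positivity), lower n hn⟩, fun s hs => upper hs.1 hs.2⟩
  exact ⟨h, h.csSup_eq⟩

end Pool.Agent.Results.MP_befaea_co.LargestSquare
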